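import Pool.Agent.helper78.FS.Spec

/-!
# Row fs:LNK (helper13): links are Eulerian
-/

namespace Pool.Agent.helper78.FS

open Finset Real
open Classical

theorem LNK : LNK_stmt := by
  intro V _ G z v hz
  obtain ⟨hz1, hz2⟩ := hz
  have h1 : ∀ e ∈ lk z v, e.card = 2 ∧ v ∉ e ∧ insert v e ∈ z := by
    intro e he
    unfold lk at he
    rw [Finset.mem_image] at he
    obtain ⟨τ, hτ, rfl⟩ := he
    rw [Finset.mem_filter] at hτ
    refine ⟨?_, Finset.notMem_erase v τ, ?_⟩
    · rw [Finset.card_erase_of_mem hτ.2, (hz1 τ hτ.1).1]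
    · rw [Finset.insert_erase hτ.2]; exact hτ.1
  have h2 : ∀ e, v ∉ e → insert v e ∈ z → e ∈ lk z v := by
    intro e he hin
    unfold lk
    rw [Finset.mem_image]
    exact ⟨insert v e, Finset.mem_filter.2 ⟨hin, Finset.mem_insert_self v e⟩, Finset.erase_insert he⟩
  refine ⟨h1, h2, ?_, ?_⟩
  · intro a
    by_cases hav : a = v
    · have h3 : (lk z v).filter (fun e => a ∈ e) = ∅ := by
        rw [Finset.filter_eq_empty_iff]
        intro e he hae
        exact (h1 e he).2.1 (hav ▸ hae)
      rw [h3, Finset.card_empty]
      exact Even.zero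
    · have hcard : ({v, a} : Finset V).card = 2 := Finset.card_pair (fun h => hav h.symm)
      have h3 : ((lk z v).filter (fun e => a ∈ e)).card = (z.filter (fun τ => ({v, a} : Finset V) ⊆ τ)).card := by
        refine Finset.card_bij' (fun e _ => insert v e) (fun τ _ => τ.erase v) ?_ ?_ ?_ ?_
        · intro e he
          rw [Finset.mem_filter] at he ⊢
          refine ⟨(h1 e he.1).2.2, ?_⟩
          intro x hx
          rw [Finset.mem_insert, Finset.mem_singleton] at hx
          rcases hx with rfl | rfl
          · exact Finset.mem_insert_self _ _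
          · exact Finset.mem_insert_of_mem he.2
        · intro τ hτ
          rw [Finset.mem_filter] at hτ ⊢
          have hv : v ∈ τ := hτ.2 (by simp)
          have ha : a ∈ τ := hτ.2 (by simp)
          refine ⟨h2 _ (Finset.notMem_erase v τ) ?_, Finset.mem_erase.2 ⟨hav, ha⟩⟩
          rw [Finset.insert_erase hv]; exact hτ.1
        · intro e he
          rw [Finset.mem_filter] at he
          exact Finset.erase_insert (h1 e he.1).2.1
        · intro τ hτ
          rw [Finset.mem_filter] at hτ
          exact Finset.insert_erase (hτ.2 (by simp))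
      rw [h3]
      exact hz2 _ hcard
  · intro a ha
    unfold verts at ha
    rw [Finset.mem_biUnion] at ha
    obtain ⟨e, he, hae⟩ := ha
    obtain ⟨-, hv, hin⟩ := h1 e he
    have hae' : a ∈ e := hae
    refine ⟨?_, ?_⟩
    · apply (hz1 _ hin).2 v (Finset.mem_insert_self v e) a (Finset.mem_insert_of_mem hae')
      intro h
      exact hv (h ▸ hae')
    · unfold verts
      rw [Finset.mem_biUnion]
      exact ⟨_, hin, Finset.mem_insert_of_mem hae'⟩

end Pool.Agent.helper78.FS
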